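import Pool.Agent.helper94.SCT.Spec
import Pool.Agent.helper93.ED.WG

/-!
# Project SCT: row BLK (mean value over a set of small measure)
-/

set_option autoImplicit false

namespace Pool.Agent.SCT

open Finset MeasureTheory
open Pool.Agent.helper78.ED (wg SS SS_triv wg_lower wg_pos)

/-- the integral of a function bounded by `A` near `t` and by `B` elsewhere -/
private theorem BLK_int (E : Set ℝ) (hE : MeasurableSet E) (V : ℝ) (hV : 0 ≤ V)
    (hvol : volume E ≤ ENNReal.ofReal V) (f : ℝ → ℝ) (hf : ∀ s, 0 ≤ f s) (t r A B : ℝ) (hr : 0 ≤ r)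
    (hA : 0 ≤ A) (hB : 0 ≤ B) (h1 : ∀ s ∈ E, f s ≤ A) (h2 : ∀ s ∈ E, r ≤ |t - s| → f s ≤ B) :
    ∫ s in E, f s ≤ A * (2 * r) + B * V := by
  have hfin : volume E ≠ ⊤ := (hvol.trans_lt ENNReal.ofReal_lt_top).ne
  have : IsFiniteMeasure (volume.restrict E) := isFiniteMeasure_restrict.2 hfin
  have hi1 : Integrable ((Metric.ball t r).indicator fun _ : ℝ => A) (volume.restrict E) :=
    (integrable_const A).indicator measurableSet_ball
  have hi2 : Integrable (fun _ : ℝ => B) (volume.restrict E) := integrable_const B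
  have hle : ∫ s in E, f s ≤ ∫ s in E, ((Metric.ball t r).indicator (fun _ : ℝ => A) s + B) := by
    refine integral_mono_of_nonneg (Filter.Eventually.of_forall hf) (hi1.add hi2) ?_
    refine (ae_restrict_iff' hE).2 (Filter.Eventually.of_forall fun s hs => ?_)
    change f s ≤ (Metric.ball t r).indicator (fun _ : ℝ => A) s + B
    by_cases hsb : s ∈ Metric.ball t r
    · rw [Set.indicator_of_mem hsb]
      have := h1 s hs
      linarith
    · rw [Set.indicator_of_notMem hsb]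
      rw [Metric.mem_ball, Real.dist_eq, not_lt, abs_sub_comm] at hsb
      have := h2 s hs hsb
      linarith
  refine hle.trans ?_
  rw [integral_add hi1 hi2, integral_indicator measurableSet_ball, integral_const, integral_const,
    smul_eq_mul, smul_eq_mul]
  have e1 : ((volume.restrict E).restrict (Metric.ball t r)).real Set.univ ≤ 2 * r := by
    rw [measureReal_restrict_apply MeasurableSet.univ, Set.univ_inter]
    have h3 : (volume.restrict E) (Metric.ball t r) ≤ ENNReal.ofReal (2 * r) := by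
      rw [← Real.volume_ball]
      exact Measure.restrict_apply_le _ _
    exact ENNReal.toReal_le_of_le_ofReal (by positivity) h3
  have e2 : (volume.restrict E).real Set.univ ≤ V := by
    rw [measureReal_restrict_apply MeasurableSet.univ, Set.univ_inter]
    exact ENNReal.toReal_le_of_le_ofReal hV hvol
  have e3 := mul_le_mul_of_nonneg_right e1 hA
  have e4 := mul_le_mul_of_nonneg_right e2 hB
  linarith [mul_comm A (2 * r), mul_comm B V]

/-- **BLK**. -/
theorem BLK (hHMI : HMI_stmt) (hKSS : KSS_stmt) : BLK_stmt := by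
  intro ε hε hε2
  obtain ⟨C1, T₀, hC1, hK⟩ := hKSS (ε / 16) (by positivity) (by linarith)
  obtain ⟨C2, hC2, hS⟩ := SS_triv
  refine ⟨ε / 8, Real.exp 1 * (3 * C2 + 11 * C1), ⌈T₀ ^ 2⌉₊ + 3, by positivity, by positivity, ?_⟩
  intro x hx E u hE hEu hvol M hM1 hM2 a
  have hxn : 3 ≤ x := by omega
  have hx3 : (3 : ℝ) ≤ x := by exact_mod_cast hxn
  have hx1 : (1 : ℝ) ≤ x := by linarith
  have hx0 : (0 : ℝ) < x := by linarith
  have hlog : 1 ≤ Real.log x := by
    rw [Real.le_log_iff_exp_le hx0]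
    have := Real.exp_one_lt_d9
    linarith
  obtain ⟨T, hTdef⟩ : ∃ T : ℝ, T = (x : ℝ) ^ (4 / 3 - ε) := ⟨_, rfl⟩
  have hT1 : 1 ≤ T := by
    rw [hTdef]
    exact Real.one_le_rpow hx1 (by linarith)
  have hT0 : 0 < T := by linarith
  have hTT : T₀ ≤ T := by
    have h1 : T₀ ^ 2 ≤ x := by
      have h2 : T₀ ^ 2 ≤ (⌈T₀ ^ 2⌉₊ : ℝ) := Nat.le_ceil _
      have h3 : ((⌈T₀ ^ 2⌉₊ + 3 : ℕ) : ℝ) ≤ x := by exact_mod_cast hx
      push_cast at h3
      linarith
    have h2 : T₀ ≤ Real.sqrt x := Real.le_sqrt_of_sq_le h1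
    have h3 : Real.sqrt x ≤ T := by
      rw [Real.sqrt_eq_rpow, hTdef]
      exact Real.rpow_le_rpow_of_exponent_le hx1 (by linarith)
    linarith
  have hlT : Real.log T = (4 / 3 - ε) * Real.log x := by
    rw [hTdef, Real.log_rpow hx0]
  have hx23 : 1 ≤ (x : ℝ) ^ (2 / 3 : ℝ) := Real.one_le_rpow hx1 (by norm_num)
  have hMpos : 1 ≤ M := by
    rcases Nat.eq_zero_or_pos M with h | h
    · subst h
      norm_num at hM1
      linarith
    · exact h
  have hMr : (1 : ℝ) ≤ M := by exact_mod_cast hMpos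
  have hM0 : (0 : ℝ) < M := by linarith
  have hMT : (M : ℝ) ≤ T ^ 5 := by
    refine hM2.trans ?_
    rw [hTdef, ← Real.rpow_natCast, ← Real.rpow_natCast, ← Real.rpow_mul hx0.le]
    refine Real.rpow_le_rpow_of_exponent_le hx1 ?_
    push_cast
    linarith
  -- the far part
  have hfar : C1 * ((M : ℝ) ^ (1 / 2 : ℝ) + T ^ (1 / 2 + ε / 16)) * (x : ℝ) ^ (ε / 8) ≤
      11 * C1 * M * Real.log x := by
    have h1 : T ^ (1 / 2 + ε / 16) * (x : ℝ) ^ (ε / 8) ≤ 8 * M := by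
      refine le_trans ?_ hM1
      rw [hTdef, ← Real.rpow_mul hx0.le, ← Real.rpow_add hx0]
      refine Real.rpow_le_rpow_of_exponent_le hx1 ?_
      nlinarith [sq_nonneg ε]
    have h2 : (M : ℝ) ^ (1 / 2 : ℝ) * (x : ℝ) ^ (ε / 8) ≤ 3 * M := by
      have h3 : (x : ℝ) ^ (ε / 8) ≤ (x : ℝ) ^ (1 / 3 : ℝ) :=
        Real.rpow_le_rpow_of_exponent_le hx1 (by linarith)
      have h4 : (x : ℝ) ^ (1 / 3 : ℝ) ≤ 3 * (M : ℝ) ^ (1 / 2 : ℝ) := by
        have h5 : ((x : ℝ) ^ (1 / 3 : ℝ)) ^ 2 = (x : ℝ) ^ (2 / 3 : ℝ) := by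
          rw [← Real.rpow_natCast, ← Real.rpow_mul hx0.le]
          norm_num
        have h6 : ((M : ℝ) ^ (1 / 2 : ℝ)) ^ 2 = M := by
          rw [← Real.rpow_natCast, ← Real.rpow_mul hM0.le]
          norm_num
        refine le_of_sq_le_sq ?_ (by positivity)
        rw [mul_pow, h5, h6]
        linarith
      have h7 : (M : ℝ) ^ (1 / 2 : ℝ) * (M : ℝ) ^ (1 / 2 : ℝ) = M := by
        rw [← Real.rpow_add hM0]
        norm_num
      calc (M : ℝ) ^ (1 / 2 : ℝ) * (x : ℝ) ^ (ε / 8)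
          ≤ (M : ℝ) ^ (1 / 2 : ℝ) * (3 * (M : ℝ) ^ (1 / 2 : ℝ)) :=
            mul_le_mul_of_nonneg_left (h3.trans h4) (by positivity)
        _ = 3 * ((M : ℝ) ^ (1 / 2 : ℝ) * (M : ℝ) ^ (1 / 2 : ℝ)) := by ring
        _ = 3 * M := by rw [h7]
    calc C1 * ((M : ℝ) ^ (1 / 2 : ℝ) + T ^ (1 / 2 + ε / 16)) * (x : ℝ) ^ (ε / 8)
        = C1 * ((M : ℝ) ^ (1 / 2 : ℝ) * (x : ℝ) ^ (ε / 8) + T ^ (1 / 2 + ε / 16) * (x : ℝ) ^ (ε / 8)) := by
          ring
      _ ≤ C1 * (3 * M + 8 * M) := mul_le_mul_of_nonneg_left (add_le_add h2 h1) hC1.le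
      _ = 11 * C1 * M * 1 := by ring
      _ ≤ 11 * C1 * M * Real.log x := mul_le_mul_of_nonneg_left hlog (by positivity)
  have key : ∀ t ∈ E, ∫ t' in E, ‖SS M 0 (t - t')‖ ≤ (3 * C2 + 11 * C1) * M * Real.log x := by
    intro t ht
    have h1 := BLK_int E hE ((x : ℝ) ^ (ε / 8)) (by positivity) hvol (fun t' => ‖SS M 0 (t - t')‖)
      (fun s => norm_nonneg _) t (Real.log T) (C2 * M)
      (C1 * ((M : ℝ) ^ (1 / 2 : ℝ) + T ^ (1 / 2 + ε / 16))) (Real.log_nonneg hT1) (by positivity)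
      (by positivity) (fun s _ => hS M 0 _ hMr le_rfl) (fun s hs hrs => by
        refine hK T hTT M (t - s) hMr hMT hrs ?_
        have h2 := hEu ht
        have h3 := hEu hs
        rw [← hTdef, Set.mem_Icc] at h2 h3
        rw [abs_le]
        constructor <;> linarith [h2.1, h2.2, h3.1, h3.2])
    refine h1.trans ?_
    have h4 : C2 * M * (2 * Real.log T) ≤ 3 * C2 * M * Real.log x := by
      have h5 : 2 * Real.log T ≤ 3 * Real.log x := by
        rw [hlT]
        nlinarith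
      calc C2 * M * (2 * Real.log T) ≤ C2 * M * (3 * Real.log x) :=
            mul_le_mul_of_nonneg_left h5 (by positivity)
        _ = 3 * C2 * M * Real.log x := by ring
    calc C2 * M * (2 * Real.log T) + C1 * ((M : ℝ) ^ (1 / 2 : ℝ) + T ^ (1 / 2 + ε / 16)) * (x : ℝ) ^ (ε / 8)
        ≤ 3 * C2 * M * Real.log x + 11 * C1 * M * Real.log x := add_le_add h4 hfar
      _ = (3 * C2 + 11 * C1) * M * Real.log x := by ring
  have hR : 0 ≤ (3 * C2 + 11 * C1) * M * Real.log x := by positivity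
  have h0 : 0 ∉ Ico M (2 * M) := by
    rw [Finset.mem_Ico]
    omega
  have hmain := hHMI E u _ hE hEu (Ico M (2 * M)) h0 a M _ hMr hR key
  have hsum : ∑ n ∈ Ico M (2 * M), ‖a n‖ ^ 2 / wg M n ≤ Real.exp 1 * ∑ n ∈ Ico M (2 * M), ‖a n‖ ^ 2 := by
    rw [Finset.mul_sum]
    refine Finset.sum_le_sum fun n hn => ?_
    rw [Finset.mem_Ico] at hn
    have h1 : (M : ℝ) ≤ n := by exact_mod_cast hn.1
    have h2 : (n : ℝ) ≤ 2 ^ 1 * M := by
      rw [pow_one]
      exact_mod_cast hn.2.le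
    have h3 := wg_lower hMr h1 h2
    have h4 : 0 < wg M n := wg_pos (by omega)
    rw [div_le_iff₀ h4]
    have h5 : Real.exp (-(((1 : ℕ) : ℝ) ^ 2)) = (Real.exp 1)⁻¹ := by
      rw [← Real.exp_neg]
      norm_num
    rw [h5] at h3
    have h6 : 1 ≤ Real.exp 1 * wg M n := by
      have := mul_le_mul_of_nonneg_left h3 (Real.exp_pos 1).le
      rwa [mul_inv_cancel₀ (Real.exp_pos 1).ne'] at this
    calc ‖a n‖ ^ 2 = ‖a n‖ ^ 2 * 1 := (mul_one _).symm
      _ ≤ ‖a n‖ ^ 2 * (Real.exp 1 * wg M n) := mul_le_mul_of_nonneg_left h6 (by positivity)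
      _ = Real.exp 1 * ‖a n‖ ^ 2 * wg M n := by ring
  calc ∫ t in E, ‖Bk M a t‖ ^ 2
      ≤ (∑ n ∈ Ico M (2 * M), ‖a n‖ ^ 2 / wg M n) * ((3 * C2 + 11 * C1) * M * Real.log x) := hmain
    _ ≤ (Real.exp 1 * ∑ n ∈ Ico M (2 * M), ‖a n‖ ^ 2) * ((3 * C2 + 11 * C1) * M * Real.log x) :=
        mul_le_mul_of_nonneg_right hsum hR
    _ = Real.exp 1 * (3 * C2 + 11 * C1) * M * Real.log x * ∑ m ∈ Ico M (2 * M), ‖a m‖ ^ 2 := by ring

end Pool.Agent.SCT
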